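import Pool.Agent.H32.N6H.Targets

/-!
# Hyperplane sections of intersections of two quadrics: row PLS
-/

set_option autoImplicit false

open Polynomial Matrix NumberField IsDedekindDomain Pool.Agent.H32.QC Pool.Agent.H34.N6

namespace Pool.Agent.H79.N6H

open Pool.Agent.H32.N6H

theorem Ec_map {F : Type} [Field F] {n : ℕ} (c : Fin n → F) :
    (Ec c).map (C : F →+* F[X]) = Ec fun i => C (c i) := by
  ext1 i j
  refine Fin.cases ?_ (fun i => ?_) i
  · rfl
  · show C ((1 : Matrix (Fin n) (Fin n) F) i j) = (1 : Matrix (Fin n) (Fin n) F[X]) i j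
    by_cases h : i = j
    · subst h; simp
    · rw [Matrix.one_apply_ne h, Matrix.one_apply_ne h, C_0]

theorem sec_map {F : Type} [Field F] {n : ℕ} (c : Fin n → F)
    (A : Matrix (Fin (n + 1)) (Fin (n + 1)) F) :
    (sec c A).map (C : F →+* F[X]) = sec (fun i => C (c i)) (A.map (C : F →+* F[X])) := by
  unfold sec
  have h : (Ec c)ᵀ.map (C : F →+* F[X]) = (Ec fun i => (C (c i) : F[X]))ᵀ := by
    rw [← Ec_map]; rfl
  rw [Matrix.map_mul, Matrix.map_mul, h, Ec_map]

theorem pen_sec {F : Type} [Field F] {n : ℕ} (c : Fin n → F)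
    (A B : Matrix (Fin (n + 1)) (Fin (n + 1)) F) :
    pen (sec c A) (sec c B) = sec (fun i => C (c i)) (pen A B) := by
  unfold pen
  rw [sec_map, sec_map]
  unfold sec
  rw [Matrix.mul_sub, Matrix.sub_mul, Matrix.mul_smul, Matrix.smul_mul]

theorem cc_lf {F : Type} [Field F] {n : ℕ} (c : Fin n → F) :
    cc (lf c) = lf fun i => (C (c i) : F[X]) := by
  funext i
  refine Fin.cases ?_ (fun i => ?_) i
  · show C (-1 : F) = -1
    rw [map_neg, map_one]
  · rfl

theorem sec_symm {F : Type} [Field F] {n : ℕ} (c : Fin n → F)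
    (A : Matrix (Fin (n + 1)) (Fin (n + 1)) F) (hA : A.IsSymm) : (sec c A).IsSymm := by
  unfold Matrix.IsSymm sec
  rw [Matrix.transpose_mul, Matrix.transpose_mul, Matrix.transpose_transpose, hA.eq,
    Matrix.mul_assoc]

theorem pf_PLS (hSDT : T_SDT) : T_PLS := by
  intro F _ n A B c hA hB hG
  have h1 : (pen (sec c A) (sec c B)).det = pl A B (lf c) := by
    rw [pen_sec, hSDT]
    unfold pl
    rw [cc_lf]
  exact { sA := sec_symm c A hA, sB := sec_symm c B hB, sep := by rw [h1]; exact hG.1,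
          deg := by rw [h1]; exact hG.2 }

end Pool.Agent.H79.N6H
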